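import Mathlib
import Pool.Agent.U426.TU.Stm

/-! Project TU, package FIN. -/

set_option autoImplicit false

namespace Pool.Agent.U689.TU.FIN

open Pool.Agent.U426.TU

theorem smul_mk (r a b c d : K) : r • (⟨a, b, c, d⟩ : HK) = ⟨r * a, r * b, r * c, r * d⟩ := by
  apply Quaternion.ext <;> simp [smul_eq_mul]

/-- the real elements of the icosian order are in `R` -/
theorem re_mem {z : HK} (hz : z ∈ OI) (h1 : z.imI = 0) (h2 : z.imJ = 0) (h3 : z.imK = 0) :
    z.re ∈ R := by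
  obtain ⟨r, hr, rfl⟩ := hz
  rw [Fin.sum_univ_four] at h1 h2 h3 ⊢
  have k2 : r 0 * 0 + r 1 * 0 + r 2 * (1 / 2) + r 3 * ((ph - 1) / 2) = 0 := h2
  have k3 : r 0 * 0 + r 1 * 0 + r 2 * (1 / 2) + r 3 * (ph / 2) = 0 := h3
  have e3 : r 3 = 0 := by linear_combination 2 * k3 - 2 * k2
  have e2 : r 2 = 0 := by
    rw [e3] at k3
    linear_combination 2 * k3
  have k0 : (r 0 • e 0 + r 1 • e 1 + r 2 • e 2 + r 3 • e 3 : HK).re =
    r 0 * 1 + r 1 * 0 + r 2 * (1 / 2) + r 3 * 0 := rfl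
  rw [k0, e2]
  have := hr 0
  simpa using this

theorem ev_mul {s t : ℝ} (hs : s ^ 2 = 2) (ht : t ^ 2 = t + 1) (x y : K) :
    ev s t (x * y) = ev s t x * ev s t y := by
  rw [← mkK_eta x, ← mkK_eta y, mkK_mul]
  simp only [ev, c0_mk, c1_mk, c2_mk, c3_mk]
  push_cast
  linear_combination (-(c1 x * c1 y + c3 x * c3 y + t * (c1 x * c3 y + c3 x * c1 y + c3 x * c3 y) : ℝ)) * hs - ((c2 x + c3 x * s) * (c2 y + c3 y * s) : ℝ) * ht

theorem TP.ne_zero {x : K} (h : TP x) : x ≠ 0 := by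
  rintro rfl
  have h2 : (Real.sqrt 2) ^ 2 = 2 := Real.sq_sqrt (by norm_num)
  have h5 : ((1 + Real.sqrt 5) / 2) ^ 2 = (1 + Real.sqrt 5) / 2 + 1 := by
    have := Real.sq_sqrt (show (0 : ℝ) ≤ 5 by norm_num)
    nlinarith
  have := h _ _ h2 h5
  rw [show (0 : K) = mkK 0 0 0 0 from mkK_zero.symm] at this
  simp [ev] at this

theorem TP.div {x y z : K} (hx : TP x) (hy : TP y) (h : x = y * z) : TP z := by
  intro s t hs ht
  have h1 := hx s t hs ht
  have h2 := hy s t hs ht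
  rw [h, ev_mul hs ht] at h1
  exact (pos_iff_pos_of_mul_pos h1).1 h2

theorem re_comm (x y : HK) : (x * y).re = (y * x).re := by
  simp only [Quaternion.re_mul]
  ring

theorem norm_pure {q : HK} {A B C : K} (h : q = (⟨0, A, B, C⟩ : HK)) :
    Quaternion.normSq q = A ^ 2 + B ^ 2 + C ^ 2 := by
  have h0 : q.re = 0 := by rw [h]
  have h1 : q.imI = A := by rw [h]
  have h2 : q.imJ = B := by rw [h]
  have h3 : q.imK = C := by rw [h]
  rw [Quaternion.normSq_def', h0, h1, h2, h3]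
  ring

/-- the last step -/
theorem finish (hNB : S_NB) (hLAST : S_LAST) {α : K} (L : AddSubgroup HK) (hL : Mid L) (x : HK)
    (hx : star x = -x) (hα : Quaternion.normSq x = α) (hLx : ∀ z ∈ L, z * x ∈ L) :
    ∃ A ∈ R, ∃ B ∈ R, ∃ C ∈ R, A ^ 2 + B ^ 2 + C ^ 2 = 2 * α := by
  obtain ⟨g, -, h, -, hgh, hhg, hLg⟩ := hNB L hL
  have hre : x.re = 0 := Quaternion.star_eq_neg.1 hx
  have h1 : star (g * x * h) = -(g * x * h) := by
    rw [Quaternion.star_eq_neg, re_comm, ← mul_assoc, hhg, one_mul, hre]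
  obtain ⟨A, hA, B, hB, C, hC, hABC⟩ := hLAST (g * x * h) h1 (by
    intro a ha b hb
    obtain ⟨a', ha', b', hb', e1⟩ := (hLg _).1 (hLx _ ((hLg _).2 ⟨a, ha, b, hb, rfl⟩))
    refine ⟨a', ha', b', hb', ?_⟩
    calc (a * opi + r2 • b) * (g * x * h) = ((a * opi + r2 • b) * g * x) * h := by
          simp only [mul_assoc]
      _ = a' * opi + r2 • b' := by rw [e1, mul_assoc, hgh, mul_one])
  refine ⟨A, hA, B, hB, C, hC, ?_⟩
  have h2 := norm_pure hABC
  rw [Quaternion.normSq_smul] at h2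
  have h3 : Quaternion.normSq (g * x * h) = α := by
    rw [map_mul, map_mul, mul_right_comm, ← map_mul, hgh, map_one, one_mul, hα]
  rw [h3, r2_sq] at h2
  exact h2.symm

/-- the case of a principal left ideal -/
theorem principal (hICO : S_ICO) (hNB : S_NB) (hEG : S_EG) (hLAST : S_LAST) {α : K}
    (J : AddSubgroup HK) (x : HK) (hx : star x = -x) (hα : Quaternion.normSq x = α)
    (hJx : ∀ z ∈ J, z * x ∈ J) (y : HK) (hy : y ∈ J) (hy0 : y ≠ 0)
    (hJ : ∀ z ∈ J, ∃ a ∈ OI, z = a * y) :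
    ∃ A ∈ R, ∃ B ∈ R, ∃ C ∈ R, A ^ 2 + B ^ 2 + C ^ 2 = 2 * α := by
  obtain ⟨hone, hmul, hstar, hsmul, hint, hdual, hden, hvec, hvecm, hvinj, hvadd, hns0, hTP, hnm⟩ := hICO
  have hN : Quaternion.normSq y ≠ 0 := fun h => hy0 (hns0 y h)
  obtain ⟨a, ha, e1⟩ := hJ _ (hJx y hy)
  -- `a = y x y⁻¹`
  have e2 : Quaternion.normSq y • a = y * x * star y := by
    rw [e1, mul_assoc, Quaternion.self_mul_star, Quaternion.mul_coe_eq_smul]
  have ha0 : a.re = 0 := by
    have h1 := congrArg QuaternionAlgebra.re e2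
    have h2 : (y * x * star y).re = 0 := by
      rw [re_comm, ← mul_assoc, Quaternion.star_mul_self, Quaternion.coe_mul_eq_smul]
      have : x.re = 0 := Quaternion.star_eq_neg.1 hx
      rw [Quaternion.re_smul, this, smul_zero]
    rw [h2, Quaternion.re_smul, smul_eq_mul] at h1
    exact (mul_eq_zero.1 h1).resolve_left hN
  have ha1 : star a = -a := Quaternion.star_eq_neg.2 ha0
  have haN : Quaternion.normSq a = α := by
    have h1 := congrArg Quaternion.normSq e1
    rw [map_mul, map_mul, hα, mul_comm] at h1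
    exact (mul_right_cancel₀ hN h1).symm
  obtain ⟨L, hL, hLa⟩ := hEG a ha ha1
  exact finish hNB hLAST L hL a ha1 haN hLa

theorem t_FIN : S_ICO → S_CH → S_SV → S_NM → S_NB → S_EG → S_LAST → S_FIN := by
  intro hICO hCH hSV hNM hNB hEG hLAST α hα hαp hsq
  obtain ⟨a, b, c, habc⟩ := hsq
  have hICO' := hICO
  obtain ⟨hone, hmul, hstar, hsmul, hint, hdual, hden, hvec, hvecm, hvinj, hvadd, hns0, hTP, hnm⟩ := hICO
  set x0 : HK := ⟨0, a, b, c⟩ with hx0
  have hx0r : x0.re = 0 := rfl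
  have hx0s : star x0 = -x0 := Quaternion.star_eq_neg.2 hx0r
  have hx0N : Quaternion.normSq x0 = α := by
    rw [norm_pure hx0, habc]
  have hx0q : x0 * x0 = -(α : HK) := by
    have h1 := Quaternion.self_mul_star x0
    rw [hx0s, hx0N, mul_neg] at h1
    rw [← h1, neg_neg]
  obtain ⟨n, hn0, hn⟩ := hden x0
  have hnR : (n : K) ∈ R := natCast_mem R n
  have hn0' : (n : K) ≠ 0 := Nat.cast_ne_zero.2 hn0
  -- the left ideal
  let J : AddSubgroup HK :=
    { carrier := {z | ∃ p ∈ OI, ∃ q ∈ OI, z = (n : K) • (p + q * x0)}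
      add_mem' := by
        rintro _ _ ⟨p, hp, q, hq, rfl⟩ ⟨p', hp', q', hq', rfl⟩
        exact ⟨p + p', OI.add_mem hp hp', q + q', OI.add_mem hq hq', by
          rw [← smul_add, add_mul]; congr 1; abel⟩
      zero_mem' := ⟨0, OI.zero_mem, 0, OI.zero_mem, by simp⟩
      neg_mem' := by
        rintro _ ⟨p, hp, q, hq, rfl⟩
        exact ⟨-p, OI.neg_mem hp, -q, OI.neg_mem hq, by
          rw [← smul_neg, neg_mul, neg_add]⟩ }
  have hJmem : ∀ z, z ∈ J ↔ ∃ p ∈ OI, ∃ q ∈ OI, z = (n : K) • (p + q * x0) := fun z => Iff.rfl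
  have hJO : J ≤ OI := by
    rintro _ ⟨p, hp, q, hq, rfl⟩
    rw [smul_add, ← mul_smul_comm]
    exact OI.add_mem (hsmul _ hnR _ hp) (hmul _ hq _ hn)
  have hLI : LI J := by
    refine ⟨hJO, ?_⟩
    rintro d hd _ ⟨p, hp, q, hq, rfl⟩
    exact ⟨d * p, hmul _ hd _ hp, d * q, hmul _ hd _ hq, by
      rw [mul_smul_comm, mul_add, mul_assoc]⟩
  have hJn : ∃ n : ℕ, n ≠ 0 ∧ (n : HK) ∈ J := by
    refine ⟨n, hn0, 1, hone, 0, OI.zero_mem, ?_⟩
    rw [zero_mul, add_zero, ← Quaternion.coe_natCast]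
    rw [← Quaternion.coe_mul_eq_smul, mul_one]
  have hJx : ∀ z ∈ J, z * x0 ∈ J := by
    rintro _ ⟨p, hp, q, hq, rfl⟩
    refine ⟨-(α • q), OI.neg_mem (hsmul _ hα _ hq), p, hp, ?_⟩
    rw [smul_mul_assoc, add_mul, mul_assoc, hx0q, mul_neg, Quaternion.mul_coe_eq_smul]
    congr 1
    abel
  obtain ⟨k, hk, hkp, hkz, hidx, hle⟩ := hCH J hLI hJn
  have hk0 : k ≠ 0 := TP.ne_zero hkp
  have hkN : ∀ x ∈ J, ∃ z ∈ R, Quaternion.normSq x = k * z := by
    intro x hx
    obtain ⟨z, hz, e1⟩ := hkz x hx x hx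
    rw [Quaternion.self_mul_star] at e1
    have e2 : ((Quaternion.normSq x : K) : HK).re = (k • z).re := congrArg QuaternionAlgebra.re e1
    have e3 : ((Quaternion.normSq x : K) : HK).imI = (k • z).imI := congrArg QuaternionAlgebra.imI e1
    have e4 : ((Quaternion.normSq x : K) : HK).imJ = (k • z).imJ := congrArg QuaternionAlgebra.imJ e1
    have e5 : ((Quaternion.normSq x : K) : HK).imK = (k • z).imK := congrArg QuaternionAlgebra.imK e1
    rw [Quaternion.re_coe, Quaternion.re_smul, smul_eq_mul] at e2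
    rw [Quaternion.imI_coe, Quaternion.imI_smul, smul_eq_mul] at e3
    rw [Quaternion.imJ_coe, Quaternion.imJ_smul, smul_eq_mul] at e4
    rw [Quaternion.imK_coe, Quaternion.imK_smul, smul_eq_mul] at e5
    refine ⟨z.re, re_mem hz ?_ ?_ ?_, e2⟩
    · exact (mul_eq_zero.1 e3.symm).resolve_left hk0
    · exact (mul_eq_zero.1 e4.symm).resolve_left hk0
    · exact (mul_eq_zero.1 e5.symm).resolve_left hk0
  obtain ⟨y, hy, hy0, hlam⟩ := hSV J hJO k hk hkp hkN hidx hle
  obtain ⟨ν, hν, hνe⟩ := hkN y hy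
  have hdiv : Quaternion.normSq y / k = ν := by rw [hνe, mul_div_cancel_left₀ _ hk0]
  rw [hdiv] at hlam
  have hνp : TP ν := TP.div (hTP y hy0) hkp hνe
  have hν0 : ν ≠ 0 := TP.ne_zero hνp
  obtain ⟨u, hu, v, hv, huv, hcase⟩ := hNM ν hν hνp hlam
  have hu0 : u ≠ 0 := left_ne_zero_of_mul_eq_one huv
  -- the elements of `J`
  have hJw : ∀ z ∈ J, ∃ w ∈ OI, ν • z = w * y := by
    intro z hz
    obtain ⟨w, hw, e1⟩ := hkz z hz y hy
    refine ⟨w, hw, ?_⟩
    have e2 : (k * ν) • z = k • (w * y) := by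
      rw [← smul_mul_assoc, ← e1, mul_assoc, Quaternion.star_mul_self,
        Quaternion.mul_coe_eq_smul, hνe]
    rw [mul_smul] at e2
    exact smul_right_injective HK hk0 e2
  rcases hcase with hcase | hcase
  · -- `ν` is a unit
    refine principal hICO' hNB hEG hLAST J x0 hx0s hx0N hJx y hy hy0 fun z hz => ?_
    obtain ⟨w, hw, e1⟩ := hJw z hz
    refine ⟨v • w, hsmul _ hv _ hw, ?_⟩
    rw [smul_mul_assoc, ← e1, hcase, smul_smul, mul_comm v u, huv, one_smul]
  · have hJw' : ∀ z ∈ J, ∃ w ∈ OI, r2 • z = w * y := by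
      intro z hz
      obtain ⟨w, hw, e1⟩ := hJw z hz
      refine ⟨v • w, hsmul _ hv _ hw, ?_⟩
      rw [smul_mul_assoc, ← e1, hcase, smul_smul, ← mul_assoc, mul_comm v r2, mul_assoc,
        mul_comm v u, huv, mul_one]
    have hr20 : r2 ≠ 0 := by
      intro h
      have := r2_sq
      rw [h] at this
      norm_num at this
    have hN : Quaternion.normSq y ≠ 0 := fun h => hy0 (hns0 y h)
    have hcancel : ∀ w w' : HK, w * y = w' * y → w = w' := by
      intro w w' h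
      have h1 : w * y * star y = w' * y * star y := by rw [h]
      rw [mul_assoc, mul_assoc, Quaternion.self_mul_star, Quaternion.mul_coe_eq_smul,
        Quaternion.mul_coe_eq_smul] at h1
      exact smul_right_injective HK hN h1
    let L : AddSubgroup HK :=
      { carrier := {w | ∃ z ∈ J, w * y = r2 • z}
        add_mem' := by
          rintro w w' ⟨z, hz, h1⟩ ⟨z', hz', h2⟩
          exact ⟨z + z', J.add_mem hz hz', by rw [add_mul, h1, h2, smul_add]⟩
        zero_mem' := ⟨0, J.zero_mem, by simp⟩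
        neg_mem' := by
          rintro w ⟨z, hz, h1⟩
          exact ⟨-z, J.neg_mem hz, by rw [neg_mul, h1, smul_neg]⟩ }
    have hLmem : ∀ w, w ∈ L ↔ ∃ z ∈ J, w * y = r2 • z := fun w => Iff.rfl
    have hLO : L ≤ OI := by
      rintro w ⟨z, hz, h1⟩
      obtain ⟨w', hw', h2⟩ := hJw' z hz
      rw [h2] at h1
      rw [hcancel _ _ h1]
      exact hw'
    by_cases h1L : (1 : HK) ∈ L
    · obtain ⟨z, hz, h1⟩ := h1L
      rw [one_mul] at h1
      have hz0 : z ≠ 0 := by
        rintro rfl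
        rw [smul_zero] at h1
        exact hy0 h1
      refine principal hICO' hNB hEG hLAST J x0 hx0s hx0N hJx z hz hz0 fun z' hz' => ?_
      obtain ⟨w, hw, e1⟩ := hJw' z' hz'
      refine ⟨w, hw, ?_⟩
      rw [h1, mul_smul_comm] at e1
      exact smul_right_injective HK hr20 e1
    by_cases h2L : ∃ x ∈ L, ¬ ∃ y ∈ OI, x = r2 • y
    · have hx1 : ∃ x1 : HK, x1 * y = y * x0 := by
        refine ⟨(Quaternion.normSq y)⁻¹ • (y * x0 * star y), ?_⟩
        rw [smul_mul_assoc, mul_assoc, Quaternion.star_mul_self, Quaternion.mul_coe_eq_smul,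
          smul_smul, inv_mul_cancel₀ hN, one_smul]
      obtain ⟨x1, hx1⟩ := hx1
      have hx1e : Quaternion.normSq y • x1 = y * x0 * star y := by
        rw [← hx1, mul_assoc, Quaternion.self_mul_star, Quaternion.mul_coe_eq_smul]
      have hx1r : x1.re = 0 := by
        have h1 := congrArg QuaternionAlgebra.re hx1e
        have h2 : (y * x0 * star y).re = 0 := by
          rw [re_comm, ← mul_assoc, Quaternion.star_mul_self, Quaternion.coe_mul_eq_smul,
            Quaternion.re_smul, hx0r, smul_zero]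
        rw [h2, Quaternion.re_smul, smul_eq_mul] at h1
        exact (mul_eq_zero.1 h1).resolve_left hN
      have hx1N : Quaternion.normSq x1 = α := by
        have h1 := congrArg Quaternion.normSq hx1
        rw [map_mul, map_mul, hx0N, mul_comm] at h1
        exact mul_left_cancel₀ hN h1
      refine finish hNB hLAST L ⟨⟨hLO, ?_⟩, ?_, h1L, h2L⟩ x1 (Quaternion.star_eq_neg.2 hx1r) hx1N ?_
      · rintro d hd w ⟨z, hz, h1⟩
        exact ⟨d * z, hLI.2 d hd z hz, by rw [mul_assoc, h1, mul_smul_comm]⟩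
      · intro x hx
        exact ⟨x * y, hLI.2 x hx y hy, by rw [smul_mul_assoc]⟩
      · rintro w ⟨z, hz, h1⟩
        exact ⟨z * x0, hJx z hz, by rw [mul_assoc, hx1, ← mul_assoc, h1, smul_mul_assoc]⟩
    · push Not at h2L
      refine principal hICO' hNB hEG hLAST J x0 hx0s hx0N hJx y hy hy0 fun z hz => ?_
      obtain ⟨w, hw, e1⟩ := hJw' z hz
      obtain ⟨w', hw', e2⟩ := h2L w ⟨z, hz, e1.symm⟩
      refine ⟨w', hw', ?_⟩
      rw [e2, smul_mul_assoc] at e1
      exact smul_right_injective HK hr20 e1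

end Pool.Agent.U689.TU.FIN
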